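import Mathlib

namespace Pool.Agent.Results.MP_b1aeef_nt.Maximal
open Finset Polynomial

/-- the Thue-Morse sequence: binary digit sum modulo 2. -/
def t (n : ℕ) : ZMod 2 := ((Nat.digits 2 n).sum : ℕ)

lemma t0 : t 0 = 0 := by simp [t]

lemma t_even (n : ℕ) : t (2 * n) = t n := by
  rcases n.eq_zero_or_pos with rfl | h
  · rfl
  · rw [t, Nat.digits_def' (by simp) (by omega)]
    simp [t]

lemma t_odd (n : ℕ) : t (2 * n + 1) = t n + 1 := by
  rw [t, Nat.digits_def' (by simp) (by omega), show (2 * n + 1) / 2 = n by omega,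
    show (2 * n + 1) % 2 = 1 by omega]
  simp [t, add_comm]

lemma t_pow (k n : ℕ) : t (2 ^ k * n) = t n := by
  induction k with
  | zero => simp
  | succ k ih => rw [pow_succ', mul_assoc, t_even, ih]

lemma sep (M : ℕ) : ∀ a b, a < 2 ^ M → t (a + 2 ^ M * b) = t a + t b := by
  induction M with
  | zero => intro a b h; simp [show a = 0 by omega, t0]
  | succ M ih =>
    intro a b h
    rw [pow_succ] at h
    obtain ⟨c, rfl | rfl⟩ := Nat.even_or_odd' a
    · rw [show 2 * c + 2 ^ (M + 1) * b = 2 * (c + 2 ^ M * b) by ring, t_even, t_even, ih _ _ (by omega)]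
    · rw [show 2 * c + 1 + 2 ^ (M + 1) * b = 2 * (c + 2 ^ M * b) + 1 by ring, t_odd, t_odd,
        ih _ _ (by omega)]
      ring

lemma sepsum (M n : ℕ) : ∀ a : ℕ → ℕ, (∀ j < n, a j < 2 ^ M) →
    t (∑ j ∈ range n, a j * (2 ^ M) ^ j) = ∑ j ∈ range n, t (a j) := by
  induction n with
  | zero => simp [t0]
  | succ n ih =>
    intro a h
    rw [sum_range_succ', sum_range_succ', ← ih (fun j => a (j + 1)) fun j hj => h _ (by omega),
      add_comm (t _), ← sep M _ _ (h 0 (by omega)), mul_sum, add_comm]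
    simp only [pow_zero, mul_one]
    congr 2
    exact sum_congr rfl fun j _ => by ring

lemma binom (B D x y : ℕ) : ∃ z, ∀ c ≤ B, ∀ j ≤ D, t (c * z ^ j) =
    ∑ p ∈ antidiagonal j, t (c * j.choose p.1 * x ^ p.2 * y ^ p.1) := by
  refine ⟨2 ^ (B * (y + x + 1) ^ D) * y + x, fun c hc j hj => ?_⟩
  rw [Nat.sum_antidiagonal_eq_sum_range_succ (fun k l => t (c * j.choose k * x ^ l * y ^ k)),
    ← sepsum (B * (y + x + 1) ^ D), add_pow, mul_sum]
  · congr 1
    exact sum_congr rfl fun k _ => by simp only [Nat.cast_id]; ring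
  · intro k hk
    refine lt_of_le_of_lt ?_ Nat.lt_two_pow_self
    have h1 := single_le_sum (f := fun k => y ^ k * x ^ (j - k) * (j.choose k : ℕ))
      (fun _ _ => Nat.zero_le _) (mem_range.mpr hk)
    have h2 : (y + x) ^ j ≤ (y + x + 1) ^ D :=
      (Nat.pow_le_pow_left (by simp) _).trans (Nat.pow_le_pow_right (by simp) hj)
    rw [add_pow] at h2
    calc _ = c * (y ^ k * x ^ (j - k) * j.choose k) := by ring
      _ ≤ _ := Nat.mul_le_mul hc (h1.trans h2)

lemma bd {B D c j k l u : ℕ} (hc : c ≤ B) (hj : j ≤ D) (hl : l ≤ D) :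
    c * j.choose k * u ^ l ≤ B * 2 ^ D * (u + 1) ^ D :=
  Nat.mul_le_mul (Nat.mul_le_mul hc ((Nat.choose_le_two_pow j k).trans
    (Nat.pow_le_pow_right (by simp) hj)))
    ((Nat.pow_le_pow_left (by simp) _).trans (Nat.pow_le_pow_right (by simp) hl))

def κ : ℕ → ℕ → ℕ
  | 0, _ => 1
  | s + 1, l => (2 ^ (s + 1) * l).choose (2 ^ s * l) * κ s l ^ 2

lemma κ_eq (s l : ℕ) : κ s l * l.factorial ^ 2 ^ s = (2 ^ s * l).factorial := by
  induction s with
  | zero => simp [κ]
  | succ s ih =>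
    rw [κ, show 2 ^ (s + 1) * l = 2 ^ s * l + 2 ^ s * l by ring,
      ← Nat.add_choose_mul_factorial_mul_factorial, ← ih]
    ring

lemma symm (f : ℕ → ℕ → ZMod 2) (h : ∀ a b, f a b = f b a) (j : ℕ) :
    ∑ p ∈ antidiagonal j, f p.1 p.2 = if 2 ∣ j then f (j / 2) (j / 2) else 0 := by
  rw [← sum_filter_add_sum_filter_not _ (fun p => p.1 = p.2), sum_involution
    (s := (antidiagonal j).filter fun p => ¬ p.1 = p.2) (fun p _ => p.swap)
    (fun p _ => by simp [h p.2, CharTwo.add_self_eq_zero])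
    (fun p hp _ e => (mem_filter.mp hp).2 (congrArg Prod.snd e))
    (fun p hp => by simpa [add_comm, eq_comm] using hp) (fun _ _ => rfl), add_zero]
  split_ifs with e
  · rw [sum_eq_single_of_mem (j / 2, j / 2) (by simp; omega)]
    intro p hp n
    simp only [mem_filter, HasAntidiagonal.mem_antidiagonal] at hp
    exact absurd (Prod.ext (by simp; omega) (by simp; omega)) n
  · refine sum_eq_zero fun p hp => ?_
    simp only [mem_filter, HasAntidiagonal.mem_antidiagonal] at hp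
    omega

lemma blockU (s : ℕ) : ∀ B D, ∃ u, ∀ c ≤ B, ∀ j ≤ D,
    t (c * u ^ j) = if 2 ^ s ∣ j then t (c * κ s (j / 2 ^ s)) else 0 := by
  induction s with
  | zero => exact fun B D => ⟨1, by simp [κ]⟩
  | succ s ih =>
    intro B D
    obtain ⟨K, hK⟩ := (((range (D + 1)).image (κ s)).bddAbove)
    obtain ⟨u, hu⟩ := ih (B * 2 ^ D * (K + 1) ^ (D + 1)) D
    obtain ⟨v, hv⟩ := ih (B * 2 ^ D * (u + 1) ^ D) D
    obtain ⟨z, hz⟩ := binom B D u v
    refine ⟨z, fun c hc j hj => ?_⟩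
    rw [hz c hc j hj, sum_congr rfl (g := fun p => if 2 ^ s ∣ p.1 ∧ 2 ^ s ∣ p.2 then
      t (c * (p.1 + p.2).choose p.1 * κ s (p.1 / 2 ^ s) * κ s (p.2 / 2 ^ s)) else 0) ?_,
      symm (fun a b => if 2 ^ s ∣ a ∧ 2 ^ s ∣ b then
        t (c * (a + b).choose a * κ s (a / 2 ^ s) * κ s (b / 2 ^ s)) else 0) ?_]
    · by_cases e : 2 ^ (s + 1) ∣ j
      · obtain ⟨l, rfl⟩ := e
        have : 2 ^ (s + 1) * l / 2 = 2 ^ s * l := by
          rw [pow_succ', mul_assoc, Nat.mul_div_cancel_left _ two_pos]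
        rw [this, if_pos (Dvd.intro (2 ^ s * l) (by ring)), if_pos (by simp), if_pos (by simp),
          Nat.mul_div_cancel_left _ (by positivity), Nat.mul_div_cancel_left _ (by positivity), κ,
          show 2 ^ s * l + 2 ^ s * l = 2 ^ (s + 1) * l by ring]
        congr 1
        ring
      · rw [if_neg e]
        split_ifs with e1 e2
        · obtain ⟨l, rfl⟩ := e1
          rw [Nat.mul_div_cancel_left _ two_pos] at e2
          exact absurd (pow_succ' 2 s ▸ Nat.mul_dvd_mul_left 2 e2.1) e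
        all_goals rfl
    · intro a b
      simp only [and_comm, add_comm b a, Nat.choose_symm_add (a := a), mul_right_comm]
    · intro p hp
      rw [HasAntidiagonal.mem_antidiagonal] at hp
      have h1 : p.1 / 2 ^ s ≤ D := (Nat.div_le_self _ _).trans (by omega)
      have h2 : κ s (p.1 / 2 ^ s) ≤ K := hK (by simpa using ⟨_, by omega, rfl⟩)
      rw [hv _ (bd hc hj (by omega)) _ (by omega), mul_right_comm, hu _ ?_ _ (by omega), hp]
      · by_cases a : 2 ^ s ∣ p.1 <;> by_cases b : 2 ^ s ∣ p.2 <;> simp [a, b]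
      · exact Nat.mul_le_mul (Nat.mul_le_mul hc ((Nat.choose_le_two_pow _ _).trans
          (Nat.pow_le_pow_right (by simp) hj))) (h2.trans
            ((Nat.le_succ K).trans (Nat.le_self_pow (by simp) _)))

lemma blockV (s B : ℕ) : ∃ v, ∀ c ≤ B, ∀ j ≤ 2 ^ (s + 1),
    t (c * v ^ j) = if j = 0 then t c else if j = 2 ^ s then t (c * (2 ^ s).factorial) else 0 := by
  have p : 0 < 2 ^ s := by positivity
  have k0 : ∀ s, κ s 0 = 1 := fun s => by simpa using κ_eq s 0
  have k1 : ∀ s, κ s 1 = (2 ^ s).factorial := fun s => by simpa using κ_eq s 1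
  obtain ⟨u, hu⟩ := blockU s B (2 ^ (s + 1))
  obtain ⟨v, hv⟩ := blockU (s + 1) (B * 2 ^ 2 ^ (s + 1) * (u + 1) ^ 2 ^ (s + 1)) (2 ^ (s + 1))
  obtain ⟨z, hz⟩ := binom B (2 ^ (s + 1)) u v
  refine ⟨z, fun c hc j hj => ?_⟩
  have key : ∀ p ∈ antidiagonal j, t (c * j.choose p.1 * u ^ p.2 * v ^ p.1) = if 2 ^ (s + 1) ∣ p.1
      then t (c * j.choose p.1 * u ^ p.2 * κ (s + 1) (p.1 / 2 ^ (s + 1))) else 0 := by
    intro p hp
    rw [HasAntidiagonal.mem_antidiagonal] at hp
    exact hv _ (bd hc hj (by omega)) _ (by omega)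
  rw [hz c hc j hj, sum_congr rfl key]
  have e2 : 2 ^ (s + 1) = 2 ^ s * 2 := pow_succ 2 s
  rcases hj.lt_or_eq with l | rfl
  · rw [sum_eq_single_of_mem (0, j) (by simp)]
    · simp only [dvd_zero, if_true, Nat.choose_zero_right, mul_one, Nat.zero_div, k0]
      rw [hu c hc j hj]
      split_ifs with a b d e f
      · simp [b, k0]
      · rw [d, Nat.div_self p, k1]
      · obtain ⟨m, rfl⟩ := a
        rw [e2] at l
        have := Nat.lt_of_mul_lt_mul_left l
        interval_cases m <;> simp at b d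
      · simp [e] at a
      · simp [f] at a
      · rfl
    · intro q hq n
      rw [HasAntidiagonal.mem_antidiagonal] at hq
      exact if_neg fun d => n (Prod.ext (Nat.eq_zero_of_dvd_of_lt d (by omega))
        (by have := Nat.eq_zero_of_dvd_of_lt d (by omega); simp; omega))
  · rw [sum_eq_add_of_mem (0, 2 ^ (s + 1)) (2 ^ (s + 1), 0) (by simp) (by simp) (by simp),
      if_neg (by omega : ¬ 2 ^ (s + 1) = 0), if_neg (by omega : ¬ 2 ^ (s + 1) = 2 ^ s)]
    · simp only [dvd_zero, if_true, Nat.choose_zero_right, mul_one, Nat.zero_div, k0, dvd_refl,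
        Nat.choose_self, pow_zero]
      rw [hu c hc _ le_rfl, if_pos (Dvd.intro 2 e2.symm), Nat.div_self (by omega), k1, e2,
        Nat.mul_div_cancel_left _ p, ← κ_eq, ← t_pow (2 ^ s) (c * κ s 2)]
      rw [show 2 ^ 2 ^ s * (c * κ s 2) = c * (κ s 2 * (Nat.factorial 2) ^ 2 ^ s) by
        simp only [Nat.factorial_two]; ring]
      exact CharTwo.add_self_eq_zero _
    · intro q hq n
      rw [HasAntidiagonal.mem_antidiagonal] at hq
      refine if_neg fun d => ?_
      by_cases z : q.1 = 0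
      · exact n.1 (Prod.ext z (by simp; omega))
      · have := Nat.le_of_dvd (by omega) d
        exact n.2 (Prod.ext (by simp; omega) (by simp; omega))

def Ctrl (e : ℕ) : Prop := ∀ (k : ℕ) (q : Fin k → ℕ), Function.Injective q →
  (∀ i j, q i < 2 * q j) → ∀ w : Fin k → ZMod 2, ∃ z, ∀ i, t (q i * z ^ e) = w i

lemma gen {s : ℕ} (h : Ctrl (2 ^ s)) {k : ℕ} (a : Fin k → ℕ → ℕ)
    (h1 : Function.Injective fun i => a i (2 ^ s)) (h2 : ∀ i j, a i (2 ^ s) < 2 * a j (2 ^ s))
    (w : Fin k → ZMod 2) : ∃ Y, ∀ i, t (∑ j ∈ range (2 ^ (s + 1) + 1), a i j * Y ^ j) = w i := by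
  have p := (2 ^ s).factorial_pos
  obtain ⟨z, hz⟩ := h k (fun i => a i (2 ^ s) * (2 ^ s).factorial)
    (fun i j e => h1 (Nat.eq_of_mul_eq_mul_right p e))
    (fun i j => by have := h2 i j; nlinarith) fun i => w i - t (a i 0)
  have bdd : ∀ f : Fin k → ℕ → ℕ, ∃ B, ∀ i, ∀ j < 2 ^ (s + 1) + 1, f i j ≤ B := fun f => by
    obtain ⟨B, hB⟩ := ((univ ×ˢ range (2 ^ (s + 1) + 1)).image fun p => f p.1 p.2).bddAbove
    exact ⟨B, fun i j hj => hB (mem_coe.mpr (mem_image.mpr ⟨(i, j), by simpa using hj, rfl⟩))⟩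
  obtain ⟨B, hB⟩ := bdd fun i j => a i j * z ^ j
  obtain ⟨v, hv⟩ := blockV s B
  obtain ⟨M, hM⟩ := bdd fun i j => a i j * z ^ j * v ^ j
  refine ⟨z * v * 2 ^ M, fun i => ?_⟩
  have : 2 ^ (s + 1) = 2 ^ s * 2 := pow_succ 2 s
  have p2 : 0 < 2 ^ s := by positivity
  simp only [mul_pow, ← mul_assoc]
  rw [sepsum M _ _ fun j hj => (hM i j hj).trans_lt Nat.lt_two_pow_self,
    sum_congr rfl fun j hj => hv _ (hB i j (mem_range.mp hj)) j (by simpa [Nat.lt_succ_iff] using hj),
    sum_eq_add_of_mem 0 (2 ^ s) (by simp) (by simp; omega) p2.ne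
      (fun j _ n => by rw [if_neg n.1, if_neg n.2]), if_pos rfl, if_neg p2.ne', if_pos rfl,
    mul_right_comm, hz]
  simp

lemma addz (B x y : ℕ) : ∃ z, ∀ q ≤ B, t (q * z) = t (q * x) + t (q * y) :=
  ⟨x + 2 ^ (B * x) * y, fun q hq => by
    rw [← sep (B * x) _ _ ((Nat.mul_le_mul_right x hq).trans_lt Nat.lt_two_pow_self)]
    congr 1
    ring⟩

lemma tri {q : ℕ} (hq : Odd q) : ∃ z, t (q * z) = 1 ∧ ∀ r < q, t (r * z) = 0 := by
  have q0 := hq.pos
  obtain ⟨a, m, ha⟩ : ∃ a m, q * a = 4 * m + 1 := by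
    obtain ⟨c, rfl⟩ := hq
    obtain ⟨d, rfl | rfl⟩ := Nat.even_or_odd' c
    exacts [⟨1, d, by ring⟩, ⟨3, 3 * d + 2, by ring⟩]
  let M := q * q + q
  have hM : q * q + q < 2 ^ M := Nat.lt_two_pow_self
  let x := 2 ^ M / q + 1
  have x1 : 2 ^ M < q * x := Nat.lt_mul_div_succ _ q0
  have x2 : q * x ≤ 2 ^ M + q := by
    have := Nat.mul_div_le (2 ^ M) q
    simp only [x, mul_add, mul_one]
    omega
  obtain ⟨y, hy⟩ := addz q x a
  obtain ⟨z, hz⟩ := addz q (x + 2 ^ M * a) y
  refine ⟨z, ?_, fun r hr => ?_⟩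
  · obtain ⟨r, hr⟩ := Nat.exists_eq_add_of_le x1.le
    have t1 : t 1 = 1 := by simpa [t0] using t_odd 0
    rw [hz q le_rfl, hy q le_rfl, show q * (x + 2 ^ M * a) = r + 2 ^ M * (2 * (2 * m + 1)) by
      rw [mul_add, hr, mul_left_comm, ha]; ring, sep M _ _ (by omega), hr, add_comm (2 ^ M),
      ← mul_one (2 ^ M), sep M _ _ (by omega), ha, show 4 * m + 1 = 2 * (2 * m) + 1 by ring,
      t_even, t_odd, t_odd, t_even, t1]
    generalize t r = a
    generalize t m = b
    revert a b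
    decide
  · have : r * x < 2 ^ M := by
      have : (r + 1) * x ≤ q * x := Nat.mul_le_mul_right _ hr
      have : q < x := by nlinarith
      nlinarith
    rw [hz r hr.le, hy r hr.le, mul_add, mul_left_comm, sep M _ _ this]
    exact CharTwo.add_self_eq_zero _

lemma ctrl (s : ℕ) : Ctrl (2 ^ s) := by
  induction s with
  | zero =>
    intro k q h1 h2 w
    have p : ∀ i, q i ≠ 0 := fun i => by have := h2 i i; omega
    choose a o h3 h4 using fun i => Nat.exists_eq_two_pow_mul_odd (p i)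
    have lt : ∀ i j, o i = o j → ¬ a i < a j := fun i j e l => by
      have := h2 j i
      rw [h4, h4, e, ← mul_assoc, ← pow_succ'] at this
      exact this.not_ge (Nat.mul_le_mul_right _ (Nat.pow_le_pow_right two_pos l))
    have inj : ∀ i j, o i = o j → i = j := fun i j e => h1 (by
      rw [h4, h4, e, le_antisymm (not_lt.mp (lt j i e.symm)) (not_lt.mp (lt i j e))])
    have : ∀ S : Finset (Fin k), ∃ z, ∀ i ∈ S, t (o i * z) = w i := by
      intro S
      induction S using Finset.induction_on_max_value o with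
      | empty => simp
      | insert i S hi hS ih =>
        obtain ⟨x, hx⟩ := ih
        by_cases e : t (o i * x) = w i
        · exact ⟨x, by simpa [e] using hx⟩
        obtain ⟨y, y1, y2⟩ := tri (h3 i)
        obtain ⟨z, hz⟩ := addz (o i) x y
        refine ⟨z, fun j hj => ?_⟩
        rcases mem_insert.mp hj with rfl | hj
        · rw [hz _ le_rfl, y1]
          revert e
          generalize t (o j * x) = a
          generalize w j = b
          revert a b
          decide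
        · rw [hz _ (hS j hj), y2 _ (lt_of_le_of_ne (hS j hj) fun e => hi (inj _ _ e ▸ hj)), hx j hj,
            add_zero]
    obtain ⟨z, hz⟩ := this univ
    exact ⟨z, fun i => by rw [h4, pow_zero, pow_one, mul_assoc, t_pow, hz i (mem_univ i)]⟩
  | succ s ih =>
    intro k q h1 h2 w
    have p : 0 < (2 ^ (s + 1)).choose (2 ^ s) := Nat.choose_pos (Nat.pow_le_pow_right two_pos (by simp))
    obtain ⟨Y, hY⟩ := gen ih (fun i j => q i * (2 ^ (s + 1)).choose j)
      (fun i j e => h1 (Nat.eq_of_mul_eq_mul_right p e)) (fun i j => by have := h2 i j; nlinarith) w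
    refine ⟨Y + 1, fun i => ?_⟩
    rw [← hY i, add_pow, mul_sum]
    congr 1
    exact sum_congr rfl fun j _ => by simp only [Nat.cast_id]; ring

lemma ev (Q : ℤ[X]) (h : 0 ≤ Q.leadingCoeff) : ∀ᶠ n : ℕ in Filter.atTop, 0 ≤ Q.eval (n : ℤ) := by
  by_cases d : 0 < Q.degree
  · have i : Function.Injective (Int.castRingHom ℝ) := Int.cast_injective
    have := (tendsto_atTop_of_leadingCoeff_nonneg (Q.map (Int.castRingHom ℝ))
      (by rwa [degree_map_eq_of_injective i]) (by
        rw [leadingCoeff_map_of_injective i]; simpa using h)).comp tendsto_natCast_atTop_atTop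
    filter_upwards [this.eventually_ge_atTop 0] with n hn
    have e := eval_map_apply (Int.castRingHom ℝ) (p := Q) (n : ℤ)
    simp only [eq_intCast, Int.cast_natCast] at e
    rw [Function.comp, e] at hn
    exact_mod_cast hn
  · rw [eq_C_of_degree_le_zero (not_lt.mp d)] at h ⊢
    rw [leadingCoeff_C] at h
    exact .of_forall fun n => by rwa [eval_C]

lemma evH (Q : ℤ[X]) (h : 0 ≤ Q.leadingCoeff) (k : ℕ) : ∀ᶠ n : ℕ in Filter.atTop,
    ∀ i : Fin k, ∀ j, 0 ≤ (hasseDeriv j Q).eval ((n : ℤ) + (i : ℕ)) := by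
  have : ∀ᶠ n : ℕ in Filter.atTop, ∀ j : Fin (Q.natDegree + 1), 0 ≤ (hasseDeriv j Q).eval (n : ℤ) :=
    Filter.eventually_all.mpr fun j => ev _ (by
      rw [leadingCoeff, natDegree_hasseDeriv, hasseDeriv_coeff, Nat.sub_add_cancel (by omega)]
      exact mul_nonneg (by simp) h)
  refine Filter.eventually_all.mpr fun i => ?_
  filter_upwards [(Filter.tendsto_add_atTop_nat i).eventually this] with n hn j
  by_cases c : j < Q.natDegree + 1
  · simpa using hn ⟨j, c⟩
  · simp [hasseDeriv_eq_zero_of_lt_natDegree Q j (by omega)]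

lemma tay (Q : ℤ[X]) {n : ℕ} (h : Q.natDegree < n) (x y : ℤ) :
    Q.eval (y + x) = ∑ j ∈ range n, (hasseDeriv j Q).eval x * y ^ j := by
  rw [← taylor_eval, eval_eq_sum_range' (by rwa [natDegree_taylor])]
  simp only [taylor_coeff]

theorem result (P : ℤ[X]) (hd : 3 ≤ P.natDegree) (h0 : ∀ n : ℕ, 0 ≤ P.eval (n : ℤ)) (k : ℕ)
    (w : Fin k → ZMod 2) : ∃ m : ℕ, ∀ i : Fin k, t (P.eval ((m : ℤ) + (i : ℕ))).toNat = w i := by
  have P0 : P ≠ 0 := by rintro rfl; simp at hd
  have hl : 0 < P.leadingCoeff := by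
    by_contra n
    have c : (-P - 1).leadingCoeff = -P.leadingCoeff := by
      rw [leadingCoeff_sub_of_degree_lt, leadingCoeff_neg]
      simpa using natDegree_pos_iff_degree_pos.mp (by omega)
    obtain ⟨m, hm⟩ := (ev (-P - 1) (by omega)).exists
    have := h0 m
    simp at hm
    omega
  let s := Nat.log 2 (P.natDegree - 1)
  have s1 : 2 ^ s ≤ P.natDegree - 1 := Nat.pow_log_le_self 2 (by omega)
  have s2 : P.natDegree - 1 < 2 ^ (s + 1) := Nat.lt_pow_succ_log_self (by simp) _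
  let Q := hasseDeriv (2 ^ s) P
  have q1 : 0 < Q.natDegree := by rw [natDegree_hasseDeriv]; omega
  have q2 : 0 < Q.leadingCoeff := by
    rw [leadingCoeff, natDegree_hasseDeriv, hasseDeriv_coeff, Nat.sub_add_cancel (by omega)]
    exact mul_pos (by exact_mod_cast Nat.choose_pos (by omega)) hl
  have r : ∀ᶠ n : ℕ in Filter.atTop, ∀ i j : Fin k,
      Q.eval ((n : ℤ) + (i : ℕ)) < 2 * Q.eval ((n : ℤ) + (j : ℕ)) := by
    refine Filter.eventually_all.mpr fun i => Filter.eventually_all.mpr fun j => ?_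
    have c : ∀ N, Q.natDegree ≤ N → (taylor ((j : ℕ) : ℤ) Q + taylor ((j : ℕ) : ℤ) Q -
        taylor ((i : ℕ) : ℤ) Q - 1).coeff N = Q.coeff N := by
      intro N hN
      have : ∀ r : ℤ, (taylor r Q).coeff N = Q.coeff N := fun r => by
        rcases hN.eq_or_lt with rfl | l
        · exact coeff_taylor_natDegree r Q
        · rw [coeff_eq_zero_of_natDegree_lt l,
            coeff_eq_zero_of_natDegree_lt (by rwa [natDegree_taylor])]
      simp [this, coeff_one, show N ≠ 0 by omega]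
    have d := natDegree_eq_of_le_of_coeff_ne_zero (natDegree_le_iff_coeff_eq_zero.mpr fun N l =>
      (c N l.le).trans (coeff_eq_zero_of_natDegree_lt l)) ((c _ le_rfl).trans_ne q2.ne')
    filter_upwards [ev _ (by rw [leadingCoeff, d, c _ le_rfl]; exact q2.le)] with n hn
    simp only [eval_sub, eval_add, eval_one, taylor_eval] at hn
    omega
  obtain ⟨y, ⟨y1, y2⟩, y3⟩ := (((evH P hl.le k).and (evH Q q2.le k)).and r).exists
  have mono : ∀ i j : Fin k, i < j → Q.eval ((y : ℤ) + (i : ℕ)) < Q.eval ((y : ℤ) + (j : ℕ)) := by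
    intro i j l
    have l : (0 : ℤ) < (j : ℕ) - (i : ℕ) := by simpa using l
    rw [show (y : ℤ) + (j : ℕ) = ((j : ℕ) - (i : ℕ)) + (y + (i : ℕ)) by ring,
      tay Q (Nat.lt_succ_self _) _ (_ - _)]
    refine lt_of_lt_of_le ?_ (add_le_sum (fun n _ => mul_nonneg (y2 i n) (pow_pos l n).le)
      (mem_range.mpr (Nat.succ_pos _)) (mem_range.mpr (Nat.lt_succ_self _)) q1.ne)
    rw [hasseDeriv_natDegree_eq_C]
    simpa using mul_pos q2 (pow_pos l _)
  obtain ⟨Y, hY⟩ := gen (ctrl s) (fun i j => ((hasseDeriv j P).eval ((y : ℤ) + (i : ℕ))).toNat)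
    (fun i j e => by
      have e := congrArg (Nat.cast : ℕ → ℤ) e
      rw [Int.toNat_of_nonneg (y1 i _), Int.toNat_of_nonneg (y1 j _)] at e
      exact le_antisymm (not_lt.mp fun l => (mono _ _ l).ne' e)
        (not_lt.mp fun l => (mono _ _ l).ne e))
    (fun i j => by
      have := y3 i j
      have := y1 i (2 ^ s)
      have := y1 j (2 ^ s)
      simp only [Q] at *
      omega) w
  refine ⟨Y + y, fun i => ?_⟩
  rw [← hY i, Nat.cast_add, add_assoc, tay P (n := 2 ^ (s + 1) + 1) (by omega)]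
  congr 1
  rw [← Int.natCast_inj, Int.toNat_of_nonneg (sum_nonneg fun n _ => mul_nonneg (y1 i n)
    (by positivity))]
  simp [Int.toNat_of_nonneg (y1 i _)]

end Pool.Agent.Results.MP_b1aeef_nt.Maximal
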